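import Pool.Agent.Helper84.SQ.GoalsD

/-! # SQ packet FAC (MP_ed7369_lc): the minimal face -/

set_option autoImplicit false

namespace Pool.Agent.Helper12.SQ

open Pool.Agent.Helper84.SQ

section
variable {m n : ℕ} (W : Matrix (Fin m) (Fin n) ℝ) (w : Fin m → ℝ) (q h : Fin n → ℝ)

/-- the objective -/
def gg (x : Fin n → ℝ) : ℝ := ∑ j, (q j * x j ^ 2 + h j * x j)

/-- the value of a row -/
def rw' (i : Fin m) (x : Fin n → ℝ) : ℝ := ∑ j, W i j * x j

theorem row_add (i : Fin m) (x u : Fin n → ℝ) (s : ℝ) :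
    rw' W i (fun j => x j + s * u j) = rw' W i x + s * rw' W i u := by
  unfold rw'
  rw [Finset.mul_sum, ← Finset.sum_add_distrib]
  exact Finset.sum_congr rfl fun j _ => by ring

theorem gg_add (x u : Fin n → ℝ) (s : ℝ) :
    gg q h (fun j => x j + s * u j) =
      gg q h x + s * ∑ j, (2 * q j * x j + h j) * u j + s ^ 2 * ∑ j, q j * u j ^ 2 := by
  unfold gg
  rw [Finset.mul_sum, Finset.mul_sum, ← Finset.sum_add_distrib, ← Finset.sum_add_distrib]
  exact Finset.sum_congr rfl fun j _ => by ring

theorem gg_convex (hq : ∀ j, 0 ≤ q j) (x y : Fin n → ℝ) (s : ℝ) (h0 : 0 ≤ s) (h1 : s ≤ 1) :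
    gg q h (fun j => x j + s * (y j - x j)) ≤ (1 - s) * gg q h x + s * gg q h y := by
  unfold gg
  rw [Finset.mul_sum, Finset.mul_sum, ← Finset.sum_add_distrib]
  refine Finset.sum_le_sum fun j _ => ?_
  have h2 : 0 ≤ q j * (s * (1 - s)) * (x j - y j) ^ 2 := by
    have := hq j
    have : 0 ≤ 1 - s := by linarith
    positivity
  nlinarith

/-- a small step -/
theorem small (a b : Fin m → ℝ) (J : Fin m → Prop) (ha : ∀ i, ¬ J i → 0 < a i) :
    ∃ s : ℝ, 0 < s ∧ s ≤ 1 ∧ ∀ i, ¬ J i → s * b i ≤ a i := by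
  classical
  set T : ℝ := ∑ i, if J i then 0 else |b i| / a i with hT
  have hT0 : ∀ i, 0 ≤ if J i then 0 else |b i| / a i := by
    intro i
    split_ifs with h
    · exact le_rfl
    · exact div_nonneg (abs_nonneg _) (ha i h).le
  have hTn : 0 ≤ T := Finset.sum_nonneg fun i _ => hT0 i
  refine ⟨1 / (1 + T), by positivity, ?_, fun i hi => ?_⟩
  · rw [div_le_one (by linarith)]
    linarith
  · have h1 : |b i| / a i ≤ T := by
      have := Finset.single_le_sum (f := fun i => if J i then 0 else |b i| / a i)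
        (fun i _ => hT0 i) (Finset.mem_univ i)
      simp only [if_neg hi] at this
      exact this
    rw [div_le_iff₀ (ha i hi)] at h1
    rw [one_div, inv_mul_le_iff₀ (by linarith)]
    have h2 := le_abs_self (b i)
    nlinarith [ha i hi]

theorem fac_aux (hq : ∀ j, 0 ≤ q j)
    (hex : ∃ x : Fin n → ℝ, (∀ i, rw' W i x ≤ w i) ∧ ∀ y : Fin n → ℝ,
      (∀ i, rw' W i y ≤ w i) → gg q h x ≤ gg q h y) :
    ∃ x : Fin n → ℝ, (∀ i, rw' W i x ≤ w i) ∧
    (∀ y : Fin n → ℝ, (∀ i, rw' W i y ≤ w i) → gg q h x ≤ gg q h y) ∧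
    (∀ u : Fin n → ℝ, (∀ i, rw' W i x = w i → rw' W i u = 0) →
      (∀ j, q j ≠ 0 → u j = 0) → ∀ i, rw' W i u = 0) ∧
    ∃ lam : Fin m → ℝ, (∀ i, rw' W i x ≠ w i → lam i = 0) ∧
      ∀ j, 2 * q j * x j + h j = ∑ i, lam i * W i j := by
  classical
  -- a minimiser with the largest number of tight rows
  let Mn : (Fin n → ℝ) → Prop := fun x => (∀ i, rw' W i x ≤ w i) ∧ ∀ y : Fin n → ℝ,
      (∀ i, rw' W i y ≤ w i) → gg q h x ≤ gg q h y
  let tg : (Fin n → ℝ) → Finset (Fin m) := fun x => Finset.univ.filter fun i => rw' W i x = w i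
  let Pr : ℕ → Prop := fun c => ∃ x, Mn x ∧ (tg x).card = c
  obtain ⟨x0, hx0⟩ := hex
  have hP0 : Pr (tg x0).card := ⟨x0, hx0, rfl⟩
  have hbd : ∀ x, (tg x).card ≤ m := fun x => by
    have := Finset.card_le_univ (tg x)
    rwa [Fintype.card_fin] at this
  have hsp : Pr (Nat.findGreatest Pr m) := Nat.findGreatest_spec (hbd x0) hP0
  obtain ⟨x, hx, hxc⟩ := hsp
  have hmax : ∀ y, Mn y → (tg y).card ≤ (tg x).card := by
    intro y hy
    rw [hxc]
    exact Nat.le_findGreatest (hbd y) ⟨y, hy, rfl⟩
  -- (1)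
  have h1 : ∀ y : Fin n → ℝ, (∀ i, rw' W i x = w i → rw' W i y = w i) → gg q h x ≤ gg q h y := by
    intro y hy
    obtain ⟨s, hs0, hs1, hs⟩ := small (fun i => w i - rw' W i x)
      (fun i => rw' W i (fun j => y j - x j)) (fun i => rw' W i x = w i)
      (fun i hi => sub_pos.2 (lt_of_le_of_ne (hx.1 i) hi))
    have hrow : ∀ i, rw' W i (fun j => y j - x j) = rw' W i y - rw' W i x := by
      intro i
      unfold rw'
      rw [← Finset.sum_sub_distrib]
      exact Finset.sum_congr rfl fun j _ => by ring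
    have h2 := hx.2 (fun j => x j + s * (y j - x j)) (fun i => by
      rw [row_add W i x (fun j => y j - x j) s]
      by_cases hi : rw' W i x = w i
      · rw [hrow, hy i hi, hi]
        simp
      · have := hs i hi
        linarith)
    have h3 := gg_convex q h hq x y s hs0.le hs1
    have h4 : s * gg q h x ≤ s * gg q h y := by linarith
    exact le_of_mul_le_mul_left h4 hs0
  -- orthogonality of the gradient
  have h2 : ∀ u : Fin n → ℝ, (∀ i, rw' W i x = w i → rw' W i u = 0) →
      ∑ j, (2 * q j * x j + h j) * u j = 0 := by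
    intro u hu
    set c : ℝ := ∑ j, (2 * q j * x j + h j) * u j with hc
    set d : ℝ := ∑ j, q j * u j ^ 2 with hd
    have hd0 : 0 ≤ d := Finset.sum_nonneg fun j _ => mul_nonneg (hq j) (sq_nonneg _)
    have h3 : ∀ s : ℝ, 0 ≤ s * c + s ^ 2 * d := by
      intro s
      have h4 := h1 (fun j => x j + s * u j) (fun i hi => by
        rw [row_add, hu i hi, hi]
        ring)
      rw [gg_add] at h4
      linarith
    by_contra hcne
    have h5 := h3 (-c / (d + 1))
    have h6 : -c / (d + 1) * c + (-c / (d + 1)) ^ 2 * d = -(c ^ 2 / (d + 1) ^ 2) := by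
      have : d + 1 ≠ 0 := by linarith
      field_simp
      ring
    rw [h6] at h5
    have h7 : 0 < c ^ 2 / (d + 1) ^ 2 := by positivity
    linarith
  refine ⟨x, hx.1, hx.2, ?_, ?_⟩
  · -- (2)
    intro u hu huq
    by_contra hcon
    push Not at hcon
    obtain ⟨i0, hi0⟩ := hcon
    -- the sign
    obtain ⟨σ, hσ⟩ : ∃ σ : ℝ, 0 < σ * rw' W i0 u := by
      refine ⟨rw' W i0 u, ?_⟩
      exact mul_self_pos.2 hi0
    have hlin : ∀ s : ℝ, gg q h (fun j => x j + s * u j) = gg q h x := by
      intro s
      rw [gg_add, h2 u hu]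
      have : ∑ j, q j * u j ^ 2 = 0 := by
        refine Finset.sum_eq_zero fun j _ => ?_
        by_cases hj : q j = 0
        · rw [hj, zero_mul]
        · rw [huq j hj]
          ring
      rw [this]
      ring
    -- the rows which come closer
    set K : Finset (Fin m) := Finset.univ.filter fun i => 0 < σ * rw' W i u with hK
    have hKne : K.Nonempty := ⟨i0, by rw [hK, Finset.mem_filter]; exact ⟨Finset.mem_univ _, hσ⟩⟩
    obtain ⟨k, hkK, hkmin⟩ := K.exists_min_image
      (fun i => (w i - rw' W i x) / (σ * rw' W i u)) hKne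
    have hk0 : 0 < σ * rw' W k u := by
      rw [hK, Finset.mem_filter] at hkK
      exact hkK.2
    set s : ℝ := (w k - rw' W k x) / (σ * rw' W k u) with hs
    have hs0 : 0 ≤ s := div_nonneg (sub_nonneg.2 (hx.1 k)) hk0.le
    have hMy : Mn (fun j => x j + (s * σ) * u j) := by
      constructor
      · intro i
        rw [row_add]
        by_cases hi : 0 < σ * rw' W i u
        · have h3 := hkmin i (by rw [hK, Finset.mem_filter]; exact ⟨Finset.mem_univ _, hi⟩)
          rw [le_div_iff₀ hi] at h3
          have h4 : s * σ * rw' W i u = s * (σ * rw' W i u) := by ring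
          rw [h4]
          linarith
        · have h4 : s * σ * rw' W i u = s * (σ * rw' W i u) := by ring
          rw [h4]
          have h5 : s * (σ * rw' W i u) ≤ 0 :=
            mul_nonpos_of_nonneg_of_nonpos hs0 (not_lt.1 hi)
          have := hx.1 i
          linarith
      · intro y hy
        rw [hlin]
        exact hx.2 y hy
    have hlt : (tg x).card < (tg (fun j => x j + (s * σ) * u j)).card := by
      apply Finset.card_lt_card
      rw [Finset.ssubset_iff_of_subset]
      · refine ⟨k, ?_, ?_⟩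
        · rw [Finset.mem_filter]
          refine ⟨Finset.mem_univ _, ?_⟩
          rw [row_add]
          have h4 : s * σ * rw' W k u = s * (σ * rw' W k u) := by ring
          rw [h4, hs, div_mul_cancel₀ _ hk0.ne']
          ring
        · rw [Finset.mem_filter]
          rintro ⟨_, hk⟩
          have := hu k hk
          rw [this, mul_zero] at hk0
          exact lt_irrefl _ hk0
      · intro i hi
        rw [Finset.mem_filter] at hi ⊢
        refine ⟨hi.1, ?_⟩
        rw [row_add, hu i hi.2, hi.2]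
        ring
    exact absurd (hmax _ hMy) (not_le.2 hlt)
  · -- (3)
    let L : (Fin n → ℝ) → ((Fin n → ℝ) →ₗ[ℝ] ℝ) := fun c =>
      { toFun := fun u => ∑ j, c j * u j
        map_add' := fun u v => by
          rw [← Finset.sum_add_distrib]
          exact Finset.sum_congr rfl fun j _ => by rw [Pi.add_apply]; ring
        map_smul' := fun r u => by
          rw [RingHom.id_apply, smul_eq_mul, Finset.mul_sum]
          exact Finset.sum_congr rfl fun j _ => by rw [Pi.smul_apply, smul_eq_mul]; ring }
    have hLa : ∀ c u, L c u = ∑ j, c j * u j := fun _ _ => rfl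
    have hmem : L (fun j => 2 * q j * x j + h j) ∈
        Submodule.span ℝ (Set.range fun i : {i : Fin m // rw' W i x = w i} => L (W i.1)) := by
      apply mem_span_of_iInf_ker_le_ker
      intro u hu
      rw [LinearMap.mem_ker, hLa]
      apply h2
      intro i hi
      rw [Submodule.mem_iInf] at hu
      have := hu ⟨i, hi⟩
      rw [LinearMap.mem_ker, hLa] at this
      exact this
    rw [Submodule.mem_span_range_iff_exists_fun] at hmem
    obtain ⟨c, hc⟩ := hmem
    refine ⟨fun i => if hi : rw' W i x = w i then c ⟨i, hi⟩ else 0, fun i hi => dif_neg hi,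
      fun j => ?_⟩
    have h3 := congrArg (fun l : (Fin n → ℝ) →ₗ[ℝ] ℝ => l (Pi.single j 1)) hc
    simp only [LinearMap.sum_apply, LinearMap.smul_apply, smul_eq_mul, hLa] at h3
    have h4 : ∀ b : Fin n → ℝ, ∑ k, b k * (Pi.single j (1 : ℝ) : Fin n → ℝ) k = b j := by
      intro b
      rw [Finset.sum_eq_single j]
      · rw [Pi.single_eq_same, mul_one]
      · intro k _ hk
        rw [Pi.single_eq_of_ne hk, mul_zero]
      · intro hj
        exact absurd (Finset.mem_univ j) hj
    rw [h4] at h3
    rw [← h3]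
    simp only [h4]
    symm
    rw [← Finset.sum_filter_add_sum_filter_not Finset.univ (fun i => rw' W i x = w i)]
    have h5 : ∑ i ∈ Finset.univ.filter (fun i => ¬ rw' W i x = w i),
        (if hi : rw' W i x = w i then c ⟨i, hi⟩ else 0) * W i j = 0 := by
      refine Finset.sum_eq_zero fun i hi => ?_
      rw [Finset.mem_filter] at hi
      rw [dif_neg hi.2, zero_mul]
    rw [h5, add_zero, Finset.sum_subtype (Finset.univ.filter fun i => rw' W i x = w i)
      (p := fun i => rw' W i x = w i) (by intro i; simp)]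
    refine Finset.sum_congr rfl fun i _ => ?_
    rw [dif_pos i.2]

end

/-- FAC. -/
theorem fac (hF : FwrStmt) : FacStmt := by
  intro m n W w q h hq hh hx
  exact fac_aux W w q h hq (hF m n W w q h hq hh hx)

end Pool.Agent.Helper12.SQ
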