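import Pool.Agent.Helper19.SQ.GoalsC2

/-!
Project SQ (MP_bb32d1_al), second stage, packet HAI: the numerical consequence of Haiman's
character formula.
-/

set_option autoImplicit false

namespace Pool.Agent.Helper12.SQ

noncomputable section

open Pool.Agent.Helper19.SQ Finset

/-! ### the signed count -/

/-- the signed sum over the stabiliser of a map. -/
theorem signed_stab {n : ℕ} {κ : Type} [DecidableEq κ] (F : Fin n → κ) :
    (∑ g : Equiv.Perm (Fin n), if F ∘ g = F then ((Equiv.Perm.sign g : ℤ)) else 0) =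
      if Function.Injective F then 1 else 0 := by
  classical
  rw [← Finset.sum_filter]
  by_cases hF : Function.Injective F
  · rw [if_pos hF]
    have h1 : (Finset.univ.filter fun g : Equiv.Perm (Fin n) => F ∘ g = F) = {1} := by
      ext g
      rw [Finset.mem_filter, Finset.mem_singleton]
      constructor
      · rintro ⟨-, h⟩
        ext i
        have h2 : F (g i) = F i := congrFun h i
        rw [hF h2]
        rfl
      · rintro rfl
        exact ⟨Finset.mem_univ _, rfl⟩
    rw [h1, Finset.sum_singleton, Equiv.Perm.sign_one]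
    rfl
  · rw [if_neg hF]
    have h0 : ∃ i j, F i = F j ∧ i ≠ j := by
      by_contra hc
      apply hF
      intro i j hij
      by_contra hne
      exact hc ⟨i, j, hij, hne⟩
    obtain ⟨i, j, hij, hne⟩ := h0
    have hsw : F ∘ (Equiv.swap i j) = F := by
      funext k
      rw [Function.comp_apply]
      by_cases hki : k = i
      · rw [hki, Equiv.swap_apply_left, hij]
      · by_cases hkj : k = j
        · rw [hkj, Equiv.swap_apply_right, hij]
        · rw [Equiv.swap_apply_of_ne_of_ne hki hkj]
    refine Finset.sum_involution (fun g _ => g * Equiv.swap i j) ?_ ?_ ?_ ?_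
    · intro g _
      rw [Equiv.Perm.sign_mul, Equiv.Perm.sign_swap hne]
      push_cast
      ring
    · intro g _ _ h
      have h1 : Equiv.swap i j = 1 := by
        have h2 : g * Equiv.swap i j = g * 1 := by rw [mul_one]; exact h
        exact mul_left_cancel h2
      have h3 : Equiv.swap i j i = (1 : Equiv.Perm (Fin n)) i := by rw [h1]
      rw [Equiv.swap_apply_left] at h3
      exact hne h3.symm
    · intro g hg
      rw [Finset.mem_filter] at hg ⊢
      refine ⟨Finset.mem_univ _, ?_⟩
      have h1 : F ∘ ((g * Equiv.swap i j : Equiv.Perm (Fin n)) : Fin n → Fin n) =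
          (F ∘ g) ∘ (Equiv.swap i j) := rfl
      rw [h1, hg.2, hsw]
    · intro g _
      rw [mul_assoc, Equiv.swap_mul_self, mul_one]

/-- the signed count of the fixed maps. -/
theorem signed_count {n : ℕ} {κ : Type} [Fintype κ] [DecidableEq κ] :
    (∑ g : Equiv.Perm (Fin n), (Equiv.Perm.sign g : ℤ) *
      (Nat.card {F : Fin n → κ // F ∘ g = F} : ℤ)) =
      ((Fintype.card κ).descFactorial n : ℤ) := by
  classical
  have h1 : ∀ g : Equiv.Perm (Fin n), (Equiv.Perm.sign g : ℤ) *
      (Nat.card {F : Fin n → κ // F ∘ g = F} : ℤ) =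
      ∑ F : Fin n → κ, if F ∘ g = F then (Equiv.Perm.sign g : ℤ) else 0 := by
    intro g
    rw [Nat.card_eq_fintype_card, Fintype.card_subtype, ← Finset.sum_filter, Finset.sum_const,
      nsmul_eq_mul, mul_comm]
  rw [Finset.sum_congr rfl fun g _ => h1 g, Finset.sum_comm,
    Finset.sum_congr rfl fun F _ => signed_stab F]
  have h2 : Fintype.card (Fin n ↪ κ) = (Fintype.card κ).descFactorial n := by
    rw [Fintype.card_embedding_eq, Fintype.card_fin]
  rw [← h2, ← Finset.sum_filter, Finset.sum_const, nsmul_eq_mul, mul_one,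
    ← Fintype.card_subtype]
  exact_mod_cast Fintype.card_congr (Equiv.subtypeInjectiveEquivEmbedding (Fin n) κ)

/-- pairs of fixed maps. -/
theorem card_pairs {n : ℕ} (A B : Type) [Fintype A] [Fintype B] (g : Equiv.Perm (Fin n)) :
    Nat.card {f : Fin n → A // f ∘ g = f} * Nat.card {x : Fin n → B // x ∘ g = x} =
      Nat.card {F : Fin n → A × B // F ∘ g = F} := by
  rw [← Nat.card_prod]
  refine Nat.card_congr
    { toFun := fun p => ⟨fun k => (p.1.1 k, p.2.1 k), ?_⟩
      invFun := fun F => (⟨fun k => (F.1 k).1, ?_⟩, ⟨fun k => (F.1 k).2, ?_⟩)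
      left_inv := fun p => rfl
      right_inv := fun F => rfl }
  · funext k
    have h1 : p.1.1 (g k) = p.1.1 k := congrFun p.1.2 k
    have h2 : p.2.1 (g k) = p.2.1 k := congrFun p.2.2 k
    show (p.1.1 (g k), p.2.1 (g k)) = (p.1.1 k, p.2.1 k)
    rw [h1, h2]
  · funext k
    have h1 : F.1 (g k) = F.1 k := congrFun F.2 k
    show (F.1 (g k)).1 = (F.1 k).1
    rw [h1]
  · funext k
    have h1 : F.1 (g k) = F.1 k := congrFun F.2 k
    show (F.1 (g k)).2 = (F.1 k).2
    rw [h1]

/-! ### the representation -/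

theorem rq_mul {n : ℕ} (g h : Equiv.Perm (Fin n)) (v : DR n) : rq (g * h) v = rq g (rq h v) := by
  obtain ⟨p, rfl⟩ := Ideal.Quotient.mk_surjective v
  have e : ∀ (σ : Equiv.Perm (Fin n)) (p : Pn n), rq σ (Ideal.Quotient.mk (dIdeal n) p) =
      Ideal.Quotient.mk (dIdeal n) (rn σ p) := fun σ p => rfl
  rw [e, e, e]
  congr 1
  show MvPolynomial.rename (Sum.map (g * h : Equiv.Perm (Fin n)) (g * h : Equiv.Perm (Fin n))) p =
    MvPolynomial.rename (Sum.map g g) (MvPolynomial.rename (Sum.map h h) p)
  rw [MvPolynomial.rename_rename, Sum.map_comp_map]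
  rfl

theorem rq_one {n : ℕ} (v : DR n) : rq (1 : Equiv.Perm (Fin n)) v = v := by
  obtain ⟨p, rfl⟩ := Ideal.Quotient.mk_surjective v
  have e : ∀ (σ : Equiv.Perm (Fin n)) (p : Pn n), rq σ (Ideal.Quotient.mk (dIdeal n) p) =
      Ideal.Quotient.mk (dIdeal n) (rn σ p) := fun σ p => rfl
  rw [e]
  congr 1
  have h1 : (Sum.map (1 : Equiv.Perm (Fin n)) (1 : Equiv.Perm (Fin n)) :
      Fin n ⊕ Fin n → Fin n ⊕ Fin n) = id := by
    funext x
    cases x <;> rfl
  show MvPolynomial.rename (Sum.map (1 : Equiv.Perm (Fin n)) (1 : Equiv.Perm (Fin n))) p = p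
  rw [h1, MvPolynomial.rename_id_apply]

/-- the action on the maps `(Z/l)^n → DR n`. -/
def rho (n l : ℕ) : Representation ℂ (Equiv.Perm (Fin n)) ((Fin n → ZMod l) → DR n) where
  toFun g :=
    { toFun := fun f x => rq g (f (x ∘ g))
      map_add' := fun f f' => by
        funext x
        exact map_add (rq g) _ _
      map_smul' := fun c f => by
        funext x
        exact map_smul (rq g) c _ }
  map_one' := by
    refine LinearMap.ext fun f => ?_
    funext x
    exact rq_one _
  map_mul' g h := by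
    refine LinearMap.ext fun f => ?_
    funext x
    exact rq_mul g h _

theorem rho_apply {n l : ℕ} (g : Equiv.Perm (Fin n)) (f : (Fin n → ZMod l) → DR n)
    (x : Fin n → ZMod l) : rho n l g f x = rq g (f (x ∘ g)) := rfl

theorem DRmaps_eq (n l : ℕ) : DRmaps n l = (rho n l).invariants := by
  ext f
  rw [Representation.mem_invariants]
  constructor
  · intro h g
    funext x
    exact h g x
  · intro h g x
    exact congrFun (h g) x

/-- the character. -/
theorem trace_rho (n l : ℕ) [NeZero l] [FiniteDimensional ℂ (DR n)] (g : Equiv.Perm (Fin n)) :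
    LinearMap.trace ℂ ((Fin n → ZMod l) → DR n) (rho n l g) =
      (Nat.card {x : Fin n → ZMod l // x ∘ g = x} : ℂ) *
        LinearMap.trace ℂ (DR n) (rq g).toLinearMap := by
  classical
  let b := Module.finBasis ℂ (DR n)
  have hb : b = Module.finBasis ℂ (DR n) := rfl
  rw [LinearMap.trace_eq_matrix_trace ℂ (Pi.basis fun _ : Fin n → ZMod l => b),
    LinearMap.trace_eq_matrix_trace ℂ b]
  unfold Matrix.trace
  rw [Fintype.sum_sigma, Nat.card_eq_fintype_card, Fintype.card_subtype, Finset.card_filter,
    Nat.cast_sum, Finset.sum_mul]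
  refine Finset.sum_congr rfl fun x _ => ?_
  rw [Finset.mul_sum]
  refine Finset.sum_congr rfl fun i _ => ?_
  rw [Matrix.diag_apply, Matrix.diag_apply, LinearMap.toMatrix_apply, LinearMap.toMatrix_apply,
    Pi.basis_repr, Pi.basis_apply, rho_apply]
  by_cases hx : x ∘ g = x
  · rw [if_pos hx, hx, Pi.single_eq_same, Nat.cast_one, one_mul]
    rfl
  · rw [if_neg hx, Pi.single_eq_of_ne hx, map_zero, map_zero, Nat.cast_zero, zero_mul]
    rfl

theorem finrank_formula (n l : ℕ) [NeZero l] [FiniteDimensional ℂ (DR n)] :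
    ((Nat.factorial n : ℕ) : ℂ) * (Module.finrank ℂ (DRmaps n l) : ℂ) =
      ∑ g : Equiv.Perm (Fin n), LinearMap.trace ℂ ((Fin n → ZMod l) → DR n) (rho n l g) := by
  classical
  have hcard : (Fintype.card (Equiv.Perm (Fin n)) : ℂ) = ((Nat.factorial n : ℕ) : ℂ) := by
    rw [Fintype.card_perm, Fintype.card_fin]
  have hne : (Fintype.card (Equiv.Perm (Fin n)) : ℂ) ≠ 0 := by
    rw [hcard]
    exact_mod_cast Nat.factorial_ne_zero n
  let _ := invertibleOfNonzero hne
  have h1 := (Representation.isProj_averageMap (rho n l)).trace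
  have h2 : (rho n l).averageMap = ⅟(Fintype.card (Equiv.Perm (Fin n)) : ℂ) •
      ∑ g : Equiv.Perm (Fin n), rho n l g := by
    unfold Representation.averageMap GroupAlgebra.average
    rw [map_smul, map_sum]
    simp only [Representation.asAlgebraHom_of]
  rw [h2, map_smul, map_sum, smul_eq_mul] at h1
  rw [DRmaps_eq, ← h1, ← mul_assoc, ← hcard, mul_invOf_self, one_mul]

/-- **Packet HAI** -/
theorem s_hai : S_HAI := by
  intro n l _ hfd hH
  classical
  have h1 := finrank_formula n l
  have h2 : ((n : ℂ) + 1) * (((Nat.factorial n : ℕ) : ℂ) * (Module.finrank ℂ (DRmaps n l) : ℂ)) =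
      ((((Fintype.card (Fin (n + 1) × ZMod l)).descFactorial n : ℕ) : ℤ) : ℂ) := by
    rw [h1, Finset.mul_sum, ← signed_count (n := n) (κ := Fin (n + 1) × ZMod l), Int.cast_sum]
    refine Finset.sum_congr rfl fun g _ => ?_
    rw [trace_rho, ← card_pairs]
    have h3 := hH g
    rw [mul_left_comm, h3]
    push_cast
    ring
  have hc : Fintype.card (Fin (n + 1) × ZMod l) = (n + 1) * l := by
    rw [Fintype.card_prod, Fintype.card_fin, ZMod.card]
  rw [hc, Nat.descFactorial_eq_factorial_mul_choose] at h2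
  have h4 : n.factorial * ((n + 1) * Module.finrank ℂ (DRmaps n l)) =
      n.factorial * ((n + 1) * l).choose n := by
    have h5 : ((n.factorial * ((n + 1) * Module.finrank ℂ (DRmaps n l)) : ℕ) : ℂ) =
        ((n.factorial * ((n + 1) * l).choose n : ℕ) : ℂ) := by
      rw [Int.cast_natCast] at h2
      rw [← h2]
      push_cast
      ring
    exact_mod_cast h5
  exact Nat.eq_of_mul_eq_mul_left (Nat.factorial_pos n) h4

end

end Pool.Agent.Helper12.SQ
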