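import Pool.Agent.Helper4.SQ.GoalsL

/-!
Project SQ (MP_bb32d1_al), stage B, packet LF2: the entries of the families `Z^r`.
-/

set_option autoImplicit false
set_option linter.unusedSectionVars false

namespace Pool.Agent.Helper12.SQ

noncomputable section

open Pool.Agent.Helper19.SQ Pool.Agent.Helper4.SQ

/-- `(n + 1 : ZMod l) ≠ 0` for `n + 1 < l` -/
theorem natCast_ne {l : ℕ} [NeZero l] {a b : ℕ} (ha : a < l) (hb : b < l) (hab : a ≠ b) :
    (a : ZMod l) ≠ (b : ZMod l) := by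
  intro h
  have h1 := congrArg ZMod.val h
  rw [ZMod.val_natCast_of_lt ha, ZMod.val_natCast_of_lt hb] at h1
  exact hab h1

theorem natCast_ne_neg_one {l : ℕ} [NeZero l] {a : ℕ} (ha : a + 1 < l) :
    (a : ZMod l) ≠ -1 := by
  intro h
  have h1 : ((a + 1 : ℕ) : ZMod l) = ((0 : ℕ) : ZMod l) := by
    push_cast
    rw [h]
    ring
  exact natCast_ne ha (by omega) (by omega) h1

/-- **Packet LF2** -/
theorem sLF2 (hFEQ : S_FEQ) (hMRY : S_MRY) (hUPC : S_UPC) : S_LF2 := by
  intro l _ V _ _ T hl G hG0 hG1 r Z hZ hZ0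
  have hne1 : ∀ c : ZMod l, c ≠ c + 1 := by
    intro c h
    have h1 : (1 : ZMod l) = 0 := by
      have h2 : c + 0 = c + 1 := by rw [add_zero]; exact h
      exact (add_left_cancel h2).symm
    have h3 : ((1 : ℕ) : ZMod l) = ((0 : ℕ) : ZMod l) := by push_cast; exact h1
    exact natCast_ne (l := l) (by omega) (by omega) (by omega) h3
  have hne2 : ∀ c : ZMod l, c ≠ c + 1 + 1 := by
    intro c h
    have h1 : (1 : ZMod l) + 1 = 0 := by
      have h2 : c + 0 = c + (1 + 1) := by rw [add_zero, ← add_assoc]; exact h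
      exact (add_left_cancel h2).symm
    have h3 : ((2 : ℕ) : ZMod l) = ((0 : ℕ) : ZMod l) := by
      have h4 : ((2 : ℕ) : ZMod l) = 1 + 1 := by norm_num
      rw [h4, h1]; norm_num
    exact natCast_ne (l := l) (by omega) (by omega) (by omega) h3
  have hMRY' := (hMRY l V T (by omega)).2
  -- (1)
  have key1 : ∀ n : ℕ, n + 1 < l → Z (n : ZMod l) ((n : ZMod l) + 1) = T.E (n : ZMod l) r := by
    intro n
    induction n with
    | zero =>
      intro _
      have h0 : ((0 : ℕ) : ZMod l) = 0 := by norm_num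
      rw [h0, zero_add]
      exact hZ0
    | succ n ih =>
      intro hn
      have ih' := ih (by omega)
      obtain ⟨c, hc⟩ : ∃ c : ZMod l, c = (n : ZMod l) := ⟨_, rfl⟩
      have hc1 : ((n + 1 : ℕ) : ZMod l) = c + 1 := by rw [hc]; push_cast; rfl
      rw [hc1]
      rw [← hc] at ih'
      have hcne : c ≠ -1 := by rw [hc]; exact natCast_ne_neg_one (by omega)
      have hcne' : c + 1 ≠ -1 := by rw [← hc1]; exact natCast_ne_neg_one hn
      have hw : ∀ z, ⁅T.h z, Z (c + 1) (c + 1 + 1) - T.E (c + 1) r⁆ =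
          ((((if z = c + 1 then 1 else 0) - (if z = c + 1 + 1 then 1 else 0) : ℤ)) : ℂ) •
            (Z (c + 1) (c + 1 + 1) - T.E (c + 1) r) := by
        intro z
        rw [lie_sub, smul_sub, T.hE, ← hG0, hZ.wt z _ _ (hne1 _)]
        rfl
      have hlt : ((if c = c + 1 then 1 else 0) - (if c = c + 1 + 1 then 1 else 0) : ℤ) -
          ((if c + 1 = c + 1 then 1 else 0) - (if c + 1 = c + 1 + 1 then 1 else 0) : ℤ) < 0 := by
        rw [if_neg (hne1 c), if_neg (hne2 c), if_pos rfl, if_neg (hne1 (c + 1))]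
        norm_num
      have h1 := (hUPC l V T (by omega) c
        (fun z => (if z = c + 1 then 1 else 0) - (if z = c + 1 + 1 then 1 else 0))
        (Z (c + 1) (c + 1 + 1) - T.E (c + 1) r) hw).2 hlt
      have h2 : ⁅T.E c 0, Z (c + 1) (c + 1 + 1)⁆ = Z c (c + 1 + 1) := by
        rw [← (hG1 c hcne).1, hZ.rel c (c + 1) (c + 1) (c + 1 + 1) (hne1 c) (hne1 (c + 1))
          (fun h => hne2 c h.2), if_pos rfl, if_neg (hne2 c), sub_zero]
      have h3 : ⁅T.E c 0, T.E (c + 1) r⁆ = ⁅T.E c r, T.E (c + 1) 0⁆ := by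
        have h4 := hMRY'.2.2.1 c (c + 1) r 0 (Or.inl rfl)
        rw [h4, add_zero]
      have h5 : ⁅T.E c r, T.E (c + 1) 0⁆ = Z c (c + 1 + 1) := by
        rw [← ih', ← (hG1 (c + 1) hcne').1, ← lie_skew,
          hZ.rel (c + 1) (c + 1 + 1) c (c + 1) (hne1 (c + 1)) (hne1 c)
            (fun h => hne2 c h.1.symm), if_neg (fun h => hne2 c h.symm), if_pos rfl, zero_sub,
          neg_neg]
      have h6 : ⁅T.E c 0, Z (c + 1) (c + 1 + 1) - T.E (c + 1) r⁆ = 0 := by
        rw [lie_sub, h2, h3, h5, sub_self]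
      exact sub_eq_zero.1 (h1 h6)
  intro c hc
  have hval : c.val + 1 < l := by
    have h1 := ZMod.val_lt c
    by_contra h2
    have h3 : c.val + 1 = l := by omega
    apply hc
    have h4 : ((c.val + 1 : ℕ) : ZMod l) = ((l : ℕ) : ZMod l) := by rw [h3]
    rw [Nat.cast_add, ZMod.natCast_zmod_val, ZMod.natCast_self, Nat.cast_one] at h4
    exact eq_neg_of_add_eq_zero_left h4
  have h1 : Z c (c + 1) = T.E c r := by
    have h2 := key1 c.val hval
    rw [ZMod.natCast_zmod_val] at h2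
    exact h2
  refine ⟨h1, ?_⟩
  have hw : ∀ z, ⁅T.h z, Z (c + 1) c - T.F c r⁆ =
      ((((if z = c + 1 then 1 else 0) - (if z = c then 1 else 0) : ℤ)) : ℂ) •
        (Z (c + 1) c - T.F c r) := by
    intro z
    rw [lie_sub, smul_sub, T.hF, ← hG0, hZ.wt z _ _ (hne1 _).symm]
    have h2 : (-((al c z : ℤ) : ℂ)) =
        ((((if z = c + 1 then 1 else 0) - (if z = c then 1 else 0) : ℤ)) : ℂ) := by
      unfold al
      push_cast
      ring
    rw [h2]
  have hlt : ((if c = c + 1 then 1 else 0) - (if c = c then 1 else 0) : ℤ) -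
      ((if c + 1 = c + 1 then 1 else 0) - (if c + 1 = c then 1 else 0) : ℤ) < 0 := by
    rw [if_neg (hne1 c), if_pos rfl, if_pos rfl, if_neg (hne1 c).symm]
    norm_num
  have h2 := (hUPC l V T (by omega) c
    (fun z => (if z = c + 1 then 1 else 0) - (if z = c then 1 else 0))
    (Z (c + 1) c - T.F c r) hw).2 hlt
  have hcard : 3 ≤ Fintype.card (ZMod l) := by
    rw [ZMod.card]; omega
  have h3 := (hFEQ (ZMod l) (Module.End ℂ V) G hcard Z hZ).2 c (c + 1) (hne1 c)
  have h4 : ⁅T.E c 0, Z (c + 1) c⁆ = T.H c r := by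
    rw [← (hG1 c hc).1, h3, h1, (hG1 c hc).2, T.EF, if_pos rfl, add_zero]
  have h5 : ⁅T.E c 0, Z (c + 1) c - T.F c r⁆ = 0 := by
    rw [lie_sub, h4, T.EF, if_pos rfl, zero_add, sub_self]
  exact sub_eq_zero.1 (h2 h5)

end

end Pool.Agent.Helper12.SQ
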