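import Pool.Agent.Helper41.SQ.GoalsN

/-!
Project SQ (MP_bb32d1_al), packet SQN-WT: weights.
-/

set_option autoImplicit false
set_option linter.unusedSectionVars false

namespace Pool.Agent.Helper12.SQN

noncomputable section

open Matrix Pool.Agent.Helper19.SQ Pool.Agent.Helper34.SQ Pool.Agent.Helper41.SQ

section

variable {A : Type} [Ring A] [Algebra ℂ A] {ι : Type} [Fintype ι] [DecidableEq ι]

/-- entry form -/
theorem wt_entry (S : Sd A ι) {l : ℕ} {e : (ZMod l → ℤ) → A} {types : Finset (ZMod l → ℤ)}
    {h : (ZMod l → ℤ) →+ ℤ} {β : ZMod l → ℤ} (hB : Blk S l e types h β) :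
    ∀ (j : ℕ) (m m' : ZMod l → ℤ), h m + j < h m' →
      ∀ x y : (tow S j).κ, (tow S j).H (e m') x y * e m = 0 := by
  intro j
  induction j with
  | zero =>
    intro m m' hlt x y
    have hne : m' ≠ m := by
      rintro rfl
      simp at hlt
    exact hB.orth m' m hne
  | succ j ih =>
    intro m m' hlt x y
    change (tow S j).H (S.D (e m') x.1 y.1) x.2 y.2 * e m = 0
    have hs : S.D (e m') x.1 y.1 = ∑ m'' ∈ types, S.D (e m') x.1 y.1 * e m'' := by
      rw [← Finset.mul_sum, hB.sum, mul_one]
    rw [hs, map_sum, Matrix.sum_apply, Finset.sum_mul]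
    refine Finset.sum_eq_zero fun m'' _ => ?_
    by_cases h0 : S.D (e m') * Matrix.diagonal (fun _ => e m'') = 0
    · have h1 : S.D (e m') x.1 y.1 * e m'' = 0 := by
        have h2 := congrFun (congrFun h0 x.1) y.1
        rw [Matrix.mul_diagonal] at h2
        exact h2
      rw [h1, map_zero, Matrix.zero_apply, zero_mul]
    · have hle : h m' ≤ h m'' + 1 := by
        rcases hB.bl m'' m' h0 with h1 | h1
        · exact h1.le
        · rw [h1, map_add, hB.hβ]
      have hlt' : h m + j < h m'' := by
        push_cast at hlt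
        omega
      have h2 : S.D (e m') x.1 y.1 * e m'' = (S.D (e m') x.1 y.1 * e m'') * e m'' := by
        rw [mul_assoc, hB.idem]
      rw [h2, map_mul, Matrix.mul_apply, Finset.sum_mul]
      refine Finset.sum_eq_zero fun k _ => ?_
      rw [mul_assoc, ih m m'' hlt', mul_zero]

end

theorem n_wt : Pool.Agent.Helper41.SQ.S_WT := by
  intro A _ _ ι _ _ S l e types h β hB j m m' hlt
  ext x y
  rw [Matrix.mul_diagonal, Matrix.zero_apply]
  exact wt_entry S hB j m m' hlt x y

end

end Pool.Agent.Helper12.SQN
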